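import Mathlib

set_option autoImplicit false

namespace Pool.Agent.Results.MP_fca86c_co.OneVertexOffTwoColours

open Relation

/-- increasing one-colour paths along a sequence: `S A c i j e` -/
def S {C : Type} (A : ℕ → ℕ → Prop) (c : ℕ → ℕ → C) (i j : ℕ) (e : C) : Prop :=
  ReflTransGen (fun u v => u < v ∧ A u v ∧ c u v = e) i j

section chain

variable {C : Type} {A : ℕ → ℕ → Prop} {c : ℕ → ℕ → C} {a b : C} {k : ℕ}

lemma S.le {i j : ℕ} {e : C} (h : S A c i j e) : i ≤ j := by
  unfold S at h
  induction h with
  | refl => exact le_refl _
  | tail _ h2 ih => exact le_trans ih h2.1.le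

lemma S.single {i j : ℕ} (hij : i < j) (h : A i j) : S A c i j (c i j) :=
  ReflTransGen.single ⟨hij, h, rfl⟩

lemma S.refl (i : ℕ) (e : C) : S A c i i e := ReflTransGen.refl

lemma S.trans {i j l : ℕ} {e : C} (h : S A c i j e) (h' : S A c j l e) : S A c i l e :=
  ReflTransGen.trans h h'

lemma S.head {i j : ℕ} {e : C} (h : S A c i j e) (hij : i < j) :
    ∃ p, i < p ∧ p ≤ j ∧ A i p ∧ c i p = e ∧ S A c p j e := by
  rcases ReflTransGen.cases_head h with h1 | ⟨p, h1, h2⟩
  · omega
  · exact ⟨p, h1.1, S.le h2, h1.2.1, h1.2.2, h2⟩

lemma S.last {i j : ℕ} {e : C} (h : S A c i j e) (hij : i < j) :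
    ∃ p, i ≤ p ∧ p < j ∧ S A c i p e ∧ A p j ∧ c p j = e := by
  rcases ReflTransGen.cases_tail h with h1 | ⟨p, h1, h2⟩
  · omega
  · exact ⟨p, S.le h1, h2.1, h1, h2.2.1, h2.2.2⟩

/-- the two-colour lemma on intervals not containing `0` -/
lemma twoCol
    (htot : ∀ i j, i < j → j ≤ k → A i j ∨ A j i)
    (hcons : ∀ i, i + 1 ≤ k → A i (i + 1))
    (hasym : ∀ i j, A i j → ¬ A j i)
    (hcol : ∀ i j, 1 ≤ i → 1 ≤ j → i ≤ k → j ≤ k → A i j → c i j = a ∨ c i j = b)
    (hNR : ∀ i j x, i < x → x ≤ j → j ≤ k → A j i →
      ¬ (S A c i (x - 1) (c j i) ∧ S A c x j (c j i))) :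
    ∀ n i j, j - i = n → 1 ≤ i → i < j → j ≤ k →
      ∃ e, (e = a ∨ e = b) ∧ S A c i j e ∧ (A j i → e ≠ c j i) := by
  intro n
  induction n using Nat.strong_induction_on with
  | _ n ih =>
    intro i j hn hi hij hj
    rcases htot i j hij hj with h | h
    · exact ⟨c i j, hcol i j hi (by omega) (by omega) hj h, S.single hij h,
        fun h' => absurd h' (hasym _ _ h)⟩
    · set g := c j i with hg
      have hgab : g = a ∨ g = b := hcol j i (by omega) hi hj (by omega) h
      -- find y
      classical
      have hex : ∃ y, i < y ∧ ¬ S A c i y g := by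
        refine ⟨j - 1, ?_, ?_⟩
        · by_contra hcon
          have : j = i + 1 := by omega
          subst this
          exact hasym _ _ (hcons i hj) h
        · intro hS
          exact hNR i j j hij (le_refl _) hj h ⟨hS, S.refl _ _⟩
      have hy := Nat.find_spec hex
      set y := Nat.find hex with hydef
      have hyj : y < j := by
        have : y ≤ j - 1 := Nat.find_min' hex (by
          refine ⟨?_, ?_⟩
          · by_contra hcon
            have : j = i + 1 := by omega
            subst this
            exact hasym _ _ (hcons i hj) h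
          · intro hS
            exact hNR i j j hij (le_refl _) hj h ⟨hS, S.refl _ _⟩)
        omega
      have hprev : S A c i (y - 1) g := by
        by_cases h1 : i < y - 1
        · have := Nat.find_min hex (m := y - 1) (by omega)
          by_contra hcon
          exact this ⟨h1, hcon⟩
        · have : y - 1 = i := by omega
          rw [this]; exact S.refl _ _
      have hnext : ¬ S A c y j g := by
        intro hS
        exact hNR i j y hy.1 hyj.le hj h ⟨hprev, hS⟩
      obtain ⟨e1, he1, hS1, -⟩ := ih (y - i) (by omega) i y rfl hi hy.1 (by omega)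
      obtain ⟨e2, he2, hS2, -⟩ := ih (j - y) (by omega) y j rfl (by omega) hyj hj
      have h1 : e1 ≠ g := by rintro rfl; exact hy.2 hS1
      have h2 : e2 ≠ g := by rintro rfl; exact hnext hS2
      have h12 : e1 = e2 := by
        rcases he1 with rfl | rfl <;> rcases he2 with rfl | rfl <;>
          rcases hgab with h3 | h3 <;> first | rfl | (exact absurd h3.symm h1) | (exact absurd h3.symm h2)
      subst h12
      exact ⟨e1, he1, hS1.trans hS2, fun _ => h1⟩

/-- one-colour increasing paths from `0` in a chain whose arcs off `0` have the colours `a`, `b` -/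
lemma mainChain
    (htot : ∀ i j, i < j → j ≤ k → A i j ∨ A j i)
    (hcons : ∀ i, i + 1 ≤ k → A i (i + 1))
    (hasym : ∀ i j, A i j → ¬ A j i)
    (hcol : ∀ i j, 1 ≤ i → 1 ≤ j → i ≤ k → j ≤ k → A i j → c i j = a ∨ c i j = b)
    (hNR : ∀ i j x, i < x → x ≤ j → j ≤ k → A j i →
      ¬ (S A c i (x - 1) (c j i) ∧ S A c x j (c j i)))
    (hRT : ∀ i x j, i < x → x < j → j ≤ k → A i x → A x j → A j i →
      ¬ (c i x ≠ c x j ∧ c x j ≠ c j i ∧ c i x ≠ c j i)) :
    ∀ j, 1 ≤ j → j ≤ k → ∃ e, S A c 0 j e := by
  have h2C := twoCol htot hcons hasym hcol hNR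
  intro j
  induction j using Nat.strong_induction_on with
  | _ j ih =>
    intro hj1 hjk
    rcases htot 0 j (by omega) hjk with h | h
    · exact ⟨_, S.single (by omega) h⟩
    · by_contra hcon
      push Not at hcon
      have hj2 : 2 ≤ j := by
        by_contra h3
        have : j = 0 + 1 := by omega
        subst this
        exact hasym _ _ (hcons 0 hjk) h
      by_cases hd : c j 0 = a ∨ c j 0 = b
      · -- case 2
        -- choose names : `p` the colour of the arc, `q` the other
        obtain ⟨p, q, hp, hab, hba⟩ : ∃ p q, c j 0 = p ∧ (∀ e, e = a ∨ e = b → e = p ∨ e = q) ∧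
            (∀ e, e = p ∨ e = q → e = a ∨ e = b) := by
          rcases hd with hd | hd
          · exact ⟨a, b, hd, fun _ h => h, fun _ h => h⟩
          · exact ⟨b, a, hd, fun _ h => h.symm, fun _ h => h.symm⟩
        classical
        have hex : ∃ r, 1 ≤ r ∧ S A c r j p := ⟨j, by omega, S.refl _ _⟩
        have hr := Nat.find_spec hex
        have hmin : ∀ m, m < Nat.find hex → ¬ (1 ≤ m ∧ S A c m j p) := fun m hm => Nat.find_min hex hm
        generalize Nat.find hex = r at hr hmin
        have hrj : r ≤ j := S.le hr.2
        have hr2 : 2 ≤ r := by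
          by_contra h3
          have h4 : r = 1 := by omega
          have := hNR 0 j 1 (by omega) (by omega) hjk h
          apply this
          rw [hp]
          refine ⟨S.refl _ _, ?_⟩
          rw [← h4]; exact hr.2
        obtain ⟨y, hy⟩ : ∃ y, r = y + 1 := ⟨r - 1, by omega⟩
        subst hy
        have hyR : ¬ S A c y j p := fun hS => hmin y (by omega) ⟨by omega, hS⟩
        have hyL : ¬ S A c 0 y p := by
          intro hS
          have := hNR 0 j (y + 1) (by omega) hrj hjk h
          rw [hp] at this
          exact this ⟨hS, hr.2⟩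
        obtain ⟨e1, he1⟩ := ih y (by omega) (by omega) (by omega)
        have he1p : e1 ≠ p := by rintro rfl; exact hyL he1
        obtain ⟨e2, he2, hS2, -⟩ := h2C (j - y) y j rfl (by omega) (by omega) hjk
        have he2p : e2 ≠ p := by rintro rfl; exact hyR hS2
        have he2q : e2 = q := by
          rcases hab e2 he2 with h3 | h3
          · exact absurd h3 he2p
          · exact h3
        subst he2q
        have he1q : e1 ≠ e2 := by
          rintro rfl
          exact hcon _ (he1.trans hS2)
        obtain ⟨u, hu0, huy, -, huA, huc⟩ := S.last he1 (by omega)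
        have hu : u = 0 := by
          by_contra hu1
          have := hcol u y (by omega) (by omega) (by omega) (by omega) huA
          rw [huc] at this
          rcases hab e1 this with h3 | h3
          · exact he1p h3
          · exact he1q h3
        subst hu
        rcases htot y j (by omega) hjk with h5 | h5
        · have h6 := hcol y j (by omega) (by omega) (by omega) (by omega) h5
          have h7 : c y j ≠ p := by
            intro h8
            apply hyR
            rw [← h8]
            exact S.single (by omega) h5
          have h8 : c y j = e2 := by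
            rcases hab _ h6 with h9 | h9
            · exact absurd h9 h7
            · exact h9
          refine hRT 0 y j (by omega) (by omega) hjk huA h5 h ⟨?_, ?_, ?_⟩
          · rw [huc, h8]; exact he1q
          · rw [h8, hp]; exact he2p
          · rw [huc, hp]; exact he1p
        · have h6 := hcol j y (by omega) (by omega) (by omega) (by omega) h5
          obtain ⟨e3, he3, hS3, hb3⟩ := h2C (j - y) y j rfl (by omega) (by omega) hjk
          have he3p : e3 ≠ p := by rintro rfl; exact hyR hS3
          have he3q : e3 = e2 := by
            rcases hab e3 he3 with h9 | h9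
            · exact absurd h9 he3p
            · exact h9
          subst he3q
          have h7 : c j y = p := by
            rcases hab _ h6 with h9 | h9
            · exact h9
            · exact absurd h9.symm (hb3 h5)
          have := hNR y j (y + 1) (by omega) hrj hjk h5
          apply this
          rw [h7]
          refine ⟨?_, hr.2⟩
          have : y + 1 - 1 = y := by omega
          rw [this]
          exact S.refl _ _
      · -- case 1
        push Not at hd
        obtain ⟨y, rfl⟩ : ∃ y, j = y + 1 := ⟨j - 1, by omega⟩
        have hAy : A y (y + 1) := hcons y hjk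
        have hcy := hcol y (y + 1) (by omega) (by omega) (by omega) (by omega) hAy
        have hSy : S A c y (y + 1) (c y (y + 1)) := S.single (by omega) hAy
        have hcd : c y (y + 1) ≠ c (y + 1) 0 := by
          intro h3
          rw [h3] at hcy
          rcases hcy with h4 | h4
          · exact hd.1 h4
          · exact hd.2 h4
        have hy0 : A y 0 := by
          rcases htot 0 y (by omega) (by omega) with h3 | h3
          · exfalso
            refine hRT 0 y (y + 1) (by omega) (by omega) hjk h3 hAy h ⟨?_, hcd, ?_⟩
            · intro h4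
              apply hcon (c y (y + 1))
              refine S.trans ?_ hSy
              rw [← h4]
              exact S.single (by omega) h3
            · intro h4
              refine hNR 0 (y + 1) (y + 1) (by omega) (le_refl _) hjk h ⟨?_, S.refl _ _⟩
              rw [← h4]
              exact S.single (by omega) h3
          · exact h3
        obtain ⟨e1, he1⟩ := ih y (by omega) (by omega) (by omega)
        have he1c : e1 ≠ c y (y + 1) := by
          rintro rfl
          exact hcon _ (he1.trans hSy)
        obtain ⟨p, hp0, hpy, hpA, hpc, hpS⟩ := S.head he1 (by omega)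
        have hpy' : p < y := by
          rcases Nat.lt_or_ge p y with h3 | h3
          · exact h3
          · have : p = y := by omega
            subst this
            exact absurd hy0 (hasym _ _ hpA)
        obtain ⟨u, hup, huy, -, huA, huc⟩ := S.last hpS hpy'
        have he1ab : e1 = a ∨ e1 = b := by
          have := hcol u y (by omega) (by omega) (by omega) (by omega) huA
          rwa [huc] at this
        have honly : ∀ e, (e = a ∨ e = b) → e ≠ e1 → e = c y (y + 1) := by
          intro e he hne
          rcases he with rfl | rfl <;> rcases hcy with h3 | h3 <;> rcases he1ab with h4 | h4 <;>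
            first | exact h3.symm | (exact absurd h4.symm hne) | (exact absurd (h4.trans h3.symm) he1c)
        have hd1 : e1 ≠ c (y + 1) 0 := by
          rintro rfl
          rcases he1ab with h4 | h4
          · exact hd.1 h4
          · exact hd.2 h4
        rcases htot p (y + 1) (by omega) hjk with h5 | h5
        · have h6 := hcol p (y + 1) (by omega) (by omega) (by omega) (by omega) h5
          have h7 : c p (y + 1) ≠ e1 := by
            intro h8
            apply hcon e1
            refine S.trans (j := p) ?_ ?_
            · rw [← hpc]; exact S.single hp0 hpA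
            · rw [← h8]; exact S.single (by omega) h5
          have h8 := honly _ h6 h7
          refine hRT 0 p (y + 1) (by omega) (by omega) hjk hpA h5 h ⟨?_, ?_, ?_⟩
          · rw [hpc]; exact h7.symm
          · rw [h8]; exact hcd
          · rw [hpc]; exact hd1
        · have h6 := hcol (y + 1) p (by omega) (by omega) (by omega) (by omega) h5
          have h7 : c (y + 1) p ≠ e1 := by
            intro h8
            refine hNR p (y + 1) (y + 1) (by omega) (le_refl _) hjk h5 ⟨?_, S.refl _ _⟩
            rw [h8]
            exact hpS
          obtain ⟨e3, he3, hS3, hb3⟩ := h2C (y + 1 - p) p (y + 1) rfl (by omega) (by omega) hjk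
          have h8 := honly _ h6 h7
          have h9 : e3 = e1 := by
            by_contra h10
            exact hb3 h5 ((honly _ he3 h10).trans h8.symm)
          subst h9
          apply hcon e3
          refine S.trans (j := p) ?_ hS3
          rw [← hpc]; exact S.single hp0 hpA

end chain

/-- a periodic point `q` whose backward orbit avoids `x` except possibly at its end -/
lemma exists_orbit {V : Type} [Finite V] [Nonempty V] (f : V → V) (hf : ∀ v, f v ≠ v) (x : V) :
    ∃ (q : V) (k : ℕ), 1 ≤ k ∧ f^[k + 1] q = q ∧
      (∀ i j, i ≤ k → j ≤ k → f^[i] q = f^[j] q → i = j) ∧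
      (∀ i, i < k → f^[i] q ≠ x) := by
  classical
  have hex : ∃ q : V, q ∈ Function.periodicPts f := by
    obtain ⟨v⟩ := ‹Nonempty V›
    obtain ⟨m, n, hmn, h⟩ := Finite.exists_ne_map_eq_of_infinite (fun n : ℕ => f^[n] v)
    wlog hlt : m < n generalizing m n
    · exact this n m hmn.symm h.symm (by omega)
    refine ⟨f^[m] v, Function.mk_mem_periodicPts (n := n - m) (by omega) ?_⟩
    change f^[n - m] (f^[m] v) = f^[m] v
    rw [← Function.iterate_add_apply]
    have : n - m + m = n := by omega
    rw [this]; exact h.symm
  have key : ∀ q : V, q ∈ Function.periodicPts f → ∃ k, 1 ≤ k ∧ Function.minimalPeriod f q = k + 1 ∧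
      f^[k + 1] q = q ∧ (∀ i j, i ≤ k → j ≤ k → f^[i] q = f^[j] q → i = j) := by
    intro q hq
    have h0 := Function.minimalPeriod_pos_of_mem_periodicPts hq
    have h1 : Function.minimalPeriod f q ≠ 1 := by
      intro h
      exact hf q (Function.minimalPeriod_eq_one_iff_isFixedPt.1 h)
    refine ⟨Function.minimalPeriod f q - 1, by omega, by omega, ?_, ?_⟩
    · have : Function.minimalPeriod f q - 1 + 1 = Function.minimalPeriod f q := by omega
      rw [this]; exact Function.iterate_minimalPeriod
    · intro i j hi hj h
      exact Function.iterate_injOn_Iio_minimalPeriod (f := f) (x := q)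
        (show i < _ by omega) (show j < _ by omega) h
  by_cases hx : x ∈ Function.periodicPts f
  · obtain ⟨k, hk1, hk2, hk3, hk4⟩ := key x hx
    refine ⟨f x, k, hk1, ?_, ?_, ?_⟩
    · rw [← Function.iterate_succ_apply, Function.iterate_succ_apply', hk3]
    · intro i j hi hj h
      rw [← Function.iterate_succ_apply, ← Function.iterate_succ_apply] at h
      rcases Nat.lt_or_ge i k with h1 | h1
      · rcases Nat.lt_or_ge j k with h2 | h2
        · have := hk4 (i + 1) (j + 1) (by omega) (by omega) h
          omega
        · exfalso
          have h3 : j = k := by omega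
          subst h3
          rw [hk3] at h
          have := hk4 (i + 1) 0 (by omega) (by omega) h
          omega
      · have h3 : i = k := by omega
        subst h3
        rcases Nat.lt_or_ge j i with h2 | h2
        · exfalso
          rw [hk3] at h
          have := hk4 0 (j + 1) (by omega) (by omega) h
          omega
        · omega
    · intro i hi h
      rw [← Function.iterate_succ_apply] at h
      have := hk4 (i + 1) 0 (by omega) (by omega) h
      omega
  · obtain ⟨q, hq⟩ := hex
    obtain ⟨k, hk1, hk2, hk3, hk4⟩ := key q hq
    refine ⟨q, k, hk1, hk3, hk4, ?_⟩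
    intro i hi h
    apply hx
    rw [← h]
    exact Function.mk_mem_periodicPts (n := k + 1) (by omega)
      (Function.IsPeriodicPt.apply_iterate hk3 i)

/-- Let the arcs of a finite nonempty tournament be coloured (any set of colours) so that, for some
vertex `x`, all arcs avoiding `x` have one of two colours `a`, `b`. Then there is a directed triangle
with three distinct colours, or a vertex from which every other vertex is reachable by a one-colour
directed path. -/
theorem result :
    ∀ (V C : Type) [Finite V] [Nonempty V] (G : Digraph V) (col : V → V → C) (x : V) (a b : C),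
      (∀ v, ¬ G.Adj v v) →
      (∀ u v, u ≠ v → (G.Adj u v ↔ ¬ G.Adj v u)) →
      (∀ u v, G.Adj u v → u ≠ x → v ≠ x → col u v = a ∨ col u v = b) →
      (∃ p q r : V, G.Adj p q ∧ G.Adj q r ∧ G.Adj r p ∧
          col p q ≠ col q r ∧ col q r ≠ col r p ∧ col p q ≠ col r p) ∨
      (∃ v : V, ∀ w : V, w ≠ v →
          ∃ i : C, Relation.TransGen (fun y z => G.Adj y z ∧ col y z = i) v w) := by
  intro V C _ _ G col x a b hirr htour h2
  by_contra hcon
  rw [not_or] at hcon
  obtain ⟨hnoR, hno⟩ := hcon
  push Not at hno
  choose f hf hreach using hno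
  obtain ⟨q, k, hk1, hper, hinj, havoid⟩ := exists_orbit f hf x
  let w : ℕ → V := fun j => f^[k - j] q
  have hwne : ∀ i j, i < j → j ≤ k → w i ≠ w j := by
    intro i j hij hj h
    have := hinj (k - i) (k - j) (by omega) (by omega) h
    omega
  have hwstep : ∀ j, j + 1 ≤ k → w j = f (w (j + 1)) := by
    intro j hj
    change f^[k - j] q = f (f^[k - (j + 1)] q)
    have h1 : k - j = (k - (j + 1)) + 1 := by omega
    rw [h1, Function.iterate_succ_apply' f]
  have hw0 : f (w 0) = w k := by
    change f (f^[k - 0] q) = f^[k - k] q
    have h1 := Function.iterate_succ_apply' f k q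
    rw [Nat.sub_zero, Nat.sub_self, ← h1]
    exact hper
  let A : ℕ → ℕ → Prop := fun i j => G.Adj (w i) (w j)
  let c : ℕ → ℕ → C := fun i j => col (w i) (w j)
  have hlift : ∀ i j e, S A c i j e →
      ReflTransGen (fun y z => G.Adj y z ∧ col y z = e) (w i) (w j) := by
    intro i j e h
    unfold S at h
    induction h with
    | refl => exact ReflTransGen.refl
    | tail _ h2 ih => exact ReflTransGen.tail ih ⟨h2.2.1, h2.2.2⟩
  have hasym : ∀ i j, A i j → ¬ A j i := by
    intro i j h h'
    have hne : w i ≠ w j := by
      intro h3
      apply hirr (w i)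
      change G.Adj (w i) (w j) at h
      rw [← h3] at h
      exact h
    exact (htour _ _ hne).1 h h'
  have htot : ∀ i j, i < j → j ≤ k → A i j ∨ A j i := by
    intro i j hij hj
    by_contra h
    rw [not_or] at h
    exact h.1 ((htour _ _ (hwne i j hij hj)).2 h.2)
  have hcons : ∀ i, i + 1 ≤ k → A i (i + 1) := by
    intro i hi
    rcases htot i (i + 1) (by omega) hi with h | h
    · exact h
    · exfalso
      apply hreach (w (i + 1)) (col (w (i + 1)) (w i))
      rw [← hwstep i hi]
      exact TransGen.single ⟨h, rfl⟩
  have hcol : ∀ i j, 1 ≤ i → 1 ≤ j → i ≤ k → j ≤ k → A i j → c i j = a ∨ c i j = b := by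
    intro i j hi hj hik hjk h
    exact h2 _ _ h (havoid (k - i) (by omega)) (havoid (k - j) (by omega))
  have hNR : ∀ i j z, i < z → z ≤ j → j ≤ k → A j i →
      ¬ (S A c i (z - 1) (c j i) ∧ S A c z j (c j i)) := by
    intro i j z hiz hzj hjk h ⟨h3, h4⟩
    have h5 := hlift _ _ _ h3
    have h6 := hlift _ _ _ h4
    apply hreach (w z) (c j i)
    obtain ⟨y, rfl⟩ : ∃ y, z = y + 1 := ⟨z - 1, by omega⟩
    rw [← hwstep y (by omega)]
    have h7 : TransGen (fun y z => G.Adj y z ∧ col y z = c j i) (w (y + 1)) (w i) :=
      TransGen.tail' h6 ⟨h, rfl⟩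
    exact TransGen.trans_left h7 h5
  have hRT : ∀ i z j, i < z → z < j → j ≤ k → A i z → A z j → A j i →
      ¬ (c i z ≠ c z j ∧ c z j ≠ c j i ∧ c i z ≠ c j i) := by
    intro i z j _ _ _ h3 h4 h5 h6
    exact hnoR ⟨_, _, _, h3, h4, h5, h6⟩
  obtain ⟨e, he⟩ := mainChain htot hcons hasym hcol hNR hRT k hk1 (le_refl _)
  obtain ⟨p, hp0, hpk, hpA, hpc, hpS⟩ := S.head he (by omega)
  apply hreach (w 0) e
  rw [hw0]
  exact TransGen.head' ⟨hpA, hpc⟩ (hlift _ _ _ hpS)

end Pool.Agent.Results.MP_fca86c_co.OneVertexOffTwoColours
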